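import Mathlib

set_option autoImplicit false

namespace Pool.Agent.H371R3.NH

/-- the surface component -/
abbrev B1 := MvPowerSeries (Fin 2) ℚ
/-- the curve component -/
abbrev B2 := PowerSeries ℚ

/-- The ring `ℚ⟦x,y,z⟧ / (xy, xz)`, as the ring of pairs of power series with the same constant
term. -/
noncomputable def R : Subring (B1 × B2) :=
  ((MvPowerSeries.constantCoeff (σ := Fin 2) (R := ℚ)).comp (RingHom.fst B1 B2)).eqLocus
    ((PowerSeries.constantCoeff (R := ℚ)).comp (RingHom.snd B1 B2))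

lemma mem_R {r : B1 × B2} : r ∈ R ↔
    MvPowerSeries.constantCoeff r.1 = PowerSeries.constantCoeff r.2 := Iff.rfl

/-- a surjection from a power series ring -/
noncomputable def psi0 : PowerSeries B1 →+* B1 × B2 :=
  (PowerSeries.constantCoeff (R := B1)).prod
    (PowerSeries.map (MvPowerSeries.constantCoeff (σ := Fin 2) (R := ℚ)))

lemma psi0_mem (s : PowerSeries B1) : psi0 s ∈ R := by
  rw [mem_R]
  simp only [psi0, RingHom.prod_apply]
  rw [← PowerSeries.coeff_zero_eq_constantCoeff_apply (PowerSeries.map _ s), PowerSeries.coeff_map,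
    PowerSeries.coeff_zero_eq_constantCoeff_apply]

noncomputable def psi : PowerSeries B1 →+* R := psi0.codRestrict R psi0_mem

lemma psi_surj : Function.Surjective psi := by
  rintro ⟨⟨f, g⟩, h⟩
  rw [mem_R] at h
  refine ⟨PowerSeries.mk (fun n => if n = 0 then f else MvPowerSeries.C (PowerSeries.coeff n g)), ?_⟩
  apply Subtype.ext
  simp only [psi, RingHom.codRestrict_apply, psi0, RingHom.prod_apply]
  refine Prod.ext ?_ ?_
  · simp [← PowerSeries.coeff_zero_eq_constantCoeff_apply]
  · ext n
    rw [PowerSeries.coeff_map, PowerSeries.coeff_mk]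
    split_ifs with h0
    · subst h0
      simpa using h
    · simp

instance : IsNoetherianRing R := isNoetherianRing_of_surjective _ _ psi psi_surj

instance : Nontrivial R := inferInstance

instance : IsLocalRing R := IsLocalRing.of_surjective' psi psi_surj

/-- first component -/
abbrev p1 (r : R) : B1 := r.1.1
/-- second component -/
abbrev p2 (r : R) : B2 := r.1.2

lemma cc (r : R) : MvPowerSeries.constantCoeff (p1 r) = PowerSeries.constantCoeff (p2 r) := r.2

/-- residue map -/
noncomputable def chi : R →+* ℚ :=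
  (MvPowerSeries.constantCoeff (σ := Fin 2) (R := ℚ)).comp ((RingHom.fst B1 B2).comp R.subtype)

lemma chi_apply (r : R) : chi r = MvPowerSeries.constantCoeff (p1 r) := rfl
lemma chi_apply2 (r : R) : chi r = PowerSeries.constantCoeff (p2 r) := r.2

/-- lift of the first component -/
noncomputable def l1 (a : B1) : R := ⟨(a, PowerSeries.C (MvPowerSeries.constantCoeff a)), by
  rw [mem_R]; simp⟩
/-- lift of the second component -/
noncomputable def l2 (a : B2) : R := ⟨(MvPowerSeries.C (PowerSeries.constantCoeff a), a), by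
  rw [mem_R]; simp⟩

lemma chi_surj : Function.Surjective chi := fun q => ⟨l1 (MvPowerSeries.C q), by
  rw [chi_apply]
  change MvPowerSeries.constantCoeff (MvPowerSeries.C q) = q
  simp⟩

/-- the filtration by order -/
def F (n : ℕ) : Ideal R where
  carrier := {r | (n : ℕ∞) ≤ MvPowerSeries.order (p1 r) ∧ (n : ℕ∞) ≤ PowerSeries.order (p2 r)}
  zero_mem' := by
    refine ⟨?_, ?_⟩
    · rw [show p1 0 = 0 from rfl, MvPowerSeries.order_zero]; exact le_top
    · rw [show p2 0 = 0 from rfl, PowerSeries.order_zero]; exact le_top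
  add_mem' := by
    rintro a b ⟨ha, ha'⟩ ⟨hb, hb'⟩
    exact ⟨le_trans (le_min ha hb) MvPowerSeries.min_order_le_add,
      le_trans (le_min ha' hb') (PowerSeries.min_order_le_order_add _ _)⟩
  smul_mem' := by
    rintro c a ⟨ha, ha'⟩
    exact ⟨le_trans ha (le_trans le_add_self MvPowerSeries.le_order_mul),
      le_trans ha' (le_trans le_add_self (PowerSeries.le_order_mul _ _))⟩

lemma mem_F {n : ℕ} {r : R} : r ∈ F n ↔
    (n : ℕ∞) ≤ MvPowerSeries.order (p1 r) ∧ (n : ℕ∞) ≤ PowerSeries.order (p2 r) := Iff.rfl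

lemma F_zero : F 0 = ⊤ := by
  rw [eq_top_iff]
  intro r _
  rw [mem_F]
  simp

lemma F_anti {m n : ℕ} (h : m ≤ n) : F n ≤ F m := by
  intro r hr
  rw [mem_F] at hr ⊢
  have : (m : ℕ∞) ≤ n := by exact_mod_cast h
  exact ⟨this.trans hr.1, this.trans hr.2⟩

lemma mem_F_one {r : R} : r ∈ F 1 ↔ chi r = 0 := by
  rw [mem_F]
  constructor
  · intro h
    rw [chi_apply]
    exact MvPowerSeries.one_le_order_iff_constCoeff_eq_zero.1 (by simpa using h.1)
  · intro h
    refine ⟨by simpa using MvPowerSeries.one_le_order_iff_constCoeff_eq_zero.2 h, ?_⟩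
    rw [chi_apply2] at h
    apply PowerSeries.nat_le_order
    intro i hi
    have : i = 0 := by omega
    subst this
    simpa using h

lemma F_one : F 1 = IsLocalRing.maximalIdeal R := by
  have h1 : (RingHom.ker chi).IsMaximal := RingHom.ker_isMaximal_of_surjective chi chi_surj
  rw [← IsLocalRing.eq_maximalIdeal h1]
  ext r
  rw [mem_F_one, RingHom.mem_ker]

/-- generators of the maximal ideal -/
noncomputable def y : R := l1 (MvPowerSeries.X 0)
noncomputable def z : R := l1 (MvPowerSeries.X 1)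
noncomputable def x : R := l2 PowerSeries.X

lemma p1_y : p1 y = MvPowerSeries.X 0 := rfl
lemma p1_z : p1 z = MvPowerSeries.X 1 := rfl
lemma p2_y : p2 y = 0 := by simp [p2, y, l1]
lemma p2_z : p2 z = 0 := by simp [p2, z, l1]
lemma p1_x : p1 x = 0 := by simp [p1, x, l2]
lemma p2_x : p2 x = PowerSeries.X := rfl

/-- decomposition -/
lemma decomp1 (n : ℕ) (f : B1) (hf : ((n + 1 : ℕ) : ℕ∞) ≤ MvPowerSeries.order f) :
    ∃ a b : B1, f = MvPowerSeries.X 0 * a + MvPowerSeries.X 1 * b ∧
      (n : ℕ∞) ≤ MvPowerSeries.order a ∧ (n : ℕ∞) ≤ MvPowerSeries.order b := by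
  classical
  let g : B1 := fun d => if d 0 = 0 then MvPowerSeries.coeff d f else 0
  have hg : ∀ d, MvPowerSeries.coeff d g = if d 0 = 0 then MvPowerSeries.coeff d f else 0 :=
    fun d => rfl
  have hgord : ((n + 1 : ℕ) : ℕ∞) ≤ MvPowerSeries.order g := by
    apply MvPowerSeries.le_order
    intro d hd
    rw [hg]
    split_ifs
    · exact MvPowerSeries.coeff_of_lt_order (lt_of_lt_of_le hd hf)
    · rfl
  have hfg : ((n + 1 : ℕ) : ℕ∞) ≤ MvPowerSeries.order (f - g) := by
    apply MvPowerSeries.le_order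
    intro d hd
    rw [map_sub, hg]
    have h0 : MvPowerSeries.coeff d f = 0 :=
      MvPowerSeries.coeff_of_lt_order (lt_of_lt_of_le hd hf)
    split_ifs <;> simp [h0]
  have h1 : (MvPowerSeries.X 0 : B1) ∣ f - g := by
    rw [MvPowerSeries.X_dvd_iff]
    intro d hd
    rw [map_sub, hg, if_pos hd, sub_self]
  have h2 : (MvPowerSeries.X 1 : B1) ∣ g := by
    rw [MvPowerSeries.X_dvd_iff]
    intro d hd
    rw [hg]
    split_ifs with h0
    · have hd0 : d = 0 := by
        ext i
        fin_cases i
        · exact h0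
        · exact hd
      subst hd0
      apply MvPowerSeries.coeff_of_lt_order
      refine lt_of_lt_of_le ?_ hf
      simp
    · rfl
  obtain ⟨a, ha⟩ := h1
  obtain ⟨b, hb⟩ := h2
  have hX : ∀ i : Fin 2, MvPowerSeries.order (MvPowerSeries.X i : B1) = 1 := by
    intro i
    have := MvPowerSeries.order_monomial_of_ne_zero (σ := Fin 2) (R := ℚ)
      (d := Finsupp.single i 1) (one_ne_zero)
    rw [MvPowerSeries.X_def, this]
    simp
  have key : ∀ (i : Fin 2) (c : B1), ((n + 1 : ℕ) : ℕ∞) ≤ MvPowerSeries.order (MvPowerSeries.X i * c) →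
      (n : ℕ∞) ≤ MvPowerSeries.order c := by
    intro i c h
    rw [MvPowerSeries.order_mul, hX] at h
    push_cast at h
    rw [add_comm] at h
    exact (ENat.add_le_add_iff_left (by simp)).1 h
  refine ⟨a, b, ?_, key 0 a (ha ▸ hfg), key 1 b (hb ▸ hgord)⟩
  rw [← ha, ← hb]
  ring

end Pool.Agent.H371R3.NH
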