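import Mathlib
import Pool.Agent.H371R3.NH.A

set_option autoImplicit false

namespace Pool.Agent.H371R3.NH

lemma order_C_cc (n : ℕ) (a : B1) (h : (n : ℕ∞) ≤ MvPowerSeries.order a) :
    (n : ℕ∞) ≤ PowerSeries.order (PowerSeries.C (MvPowerSeries.constantCoeff a) : B2) := by
  rcases Nat.eq_zero_or_pos n with h0 | h0
  · subst h0; simp
  · have h1 : MvPowerSeries.constantCoeff a = 0 := by
      apply MvPowerSeries.one_le_order_iff_constCoeff_eq_zero.1
      refine le_trans ?_ h
      exact_mod_cast h0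
    rw [h1, map_zero, PowerSeries.order_zero]
    exact le_top

lemma l1_mem {n : ℕ} {a : B1} (h : (n : ℕ∞) ≤ MvPowerSeries.order a) : l1 a ∈ F n := by
  rw [mem_F]
  exact ⟨h, order_C_cc n a h⟩

lemma l2_mem {n : ℕ} {a : B2} (h : (n : ℕ∞) ≤ PowerSeries.order a) : l2 a ∈ F n := by
  rw [mem_F]
  refine ⟨?_, h⟩
  change (n : ℕ∞) ≤ MvPowerSeries.order (MvPowerSeries.C (PowerSeries.constantCoeff a))
  rcases Nat.eq_zero_or_pos n with h0 | h0
  · subst h0; simp
  · have h1 : PowerSeries.constantCoeff a = 0 := by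
      rw [← PowerSeries.coeff_zero_eq_constantCoeff_apply]
      apply PowerSeries.coeff_of_lt_order
      refine lt_of_lt_of_le ?_ h
      exact_mod_cast h0
    rw [h1, map_zero, MvPowerSeries.order_zero]
    exact le_top

lemma decomp (n : ℕ) (r : R) (hr : r ∈ F (n + 1)) :
    ∃ a ∈ F n, ∃ b ∈ F n, ∃ c ∈ F n, r = y * a + z * b + x * c := by
  rw [mem_F] at hr
  obtain ⟨a, b, hab, ha, hb⟩ := decomp1 n (p1 r) hr.1
  have hg : (PowerSeries.X : B2) ^ (n + 1) ∣ p2 r := by
    rw [PowerSeries.X_pow_dvd_iff]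
    intro m hm
    apply PowerSeries.coeff_of_lt_order
    exact lt_of_lt_of_le (by exact_mod_cast hm) hr.2
  obtain ⟨h, hh⟩ := hg
  have hc : (n : ℕ∞) ≤ PowerSeries.order (PowerSeries.X ^ n * h : B2) := by
    apply PowerSeries.nat_le_order
    intro i hi
    rw [PowerSeries.coeff_X_pow_mul']
    rw [if_neg (by omega)]
  refine ⟨l1 a, l1_mem ha, l1 b, l1_mem hb, l2 (PowerSeries.X ^ n * h), l2_mem hc, ?_⟩
  apply Subtype.ext
  refine Prod.ext ?_ ?_
  · change p1 r = MvPowerSeries.X 0 * a + MvPowerSeries.X 1 * b + p1 x * _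
    rw [p1_x, zero_mul, add_zero]
    exact hab
  · change p2 r = p2 y * _ + p2 z * _ + PowerSeries.X * (PowerSeries.X ^ n * h)
    rw [p2_y, p2_z, zero_mul, zero_mul, zero_add, zero_add, hh]
    ring

lemma y_mem : y ∈ F 1 := by
  rw [mem_F_one, chi_apply, p1_y]; simp
lemma z_mem : z ∈ F 1 := by
  rw [mem_F_one, chi_apply, p1_z]; simp
lemma x_mem : x ∈ F 1 := by
  rw [mem_F_one, chi_apply, p1_x]; simp

lemma F_mul_le (m n : ℕ) : F m * F n ≤ F (m + n) := by
  rw [Ideal.mul_le]
  intro a ha b hb
  rw [mem_F] at ha hb ⊢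
  refine ⟨?_, ?_⟩
  · refine le_trans ?_ (MvPowerSeries.le_order_mul (f := p1 a) (g := p1 b))
    push_cast
    exact add_le_add ha.1 hb.1
  · refine le_trans ?_ (PowerSeries.le_order_mul (p2 a) (p2 b))
    push_cast
    exact add_le_add ha.2 hb.2

lemma F_succ (n : ℕ) : F (n + 1) = F 1 * F n := by
  apply le_antisymm
  · intro r hr
    obtain ⟨a, ha, b, hb, c, hc, h⟩ := decomp n r hr
    rw [h]
    exact Ideal.add_mem _ (Ideal.add_mem _ (Ideal.mul_mem_mul y_mem ha)
      (Ideal.mul_mem_mul z_mem hb)) (Ideal.mul_mem_mul x_mem hc)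
  · have := F_mul_le 1 n
    rwa [add_comm 1 n] at this

lemma F_eq_pow (n : ℕ) : F n = IsLocalRing.maximalIdeal R ^ n := by
  induction n with
  | zero => rw [F_zero, pow_zero, Ideal.one_eq_top]
  | succ n ih => rw [F_succ, ih, F_one, pow_succ, mul_comm]

lemma F_one_span : F 1 = Ideal.span {y, z, x} := by
  apply le_antisymm
  · intro r hr
    obtain ⟨a, ha, b, hb, c, hc, h⟩ := decomp 0 r hr
    rw [h]
    have h1 : y ∈ Ideal.span ({y, z, x} : Set R) := Ideal.subset_span (by simp)
    have h2 : z ∈ Ideal.span ({y, z, x} : Set R) := Ideal.subset_span (by simp)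
    have h3 : x ∈ Ideal.span ({y, z, x} : Set R) := Ideal.subset_span (by simp)
    exact Ideal.add_mem _ (Ideal.add_mem _ (Ideal.mul_mem_right _ _ h1)
      (Ideal.mul_mem_right _ _ h2)) (Ideal.mul_mem_right _ _ h3)
  · rw [Ideal.span_le]
    rintro r (rfl | rfl | rfl)
    · exact y_mem
    · exact z_mem
    · exact x_mem

/-- A general fact on rings with a multiplicative order function. -/
lemma order_closure {B : Type} [CommRing B] (ord : B → ℕ∞) (h0 : ord 0 = ⊤)
    (hneg : ∀ a, ord (-a) = ord a) (h1 : ord 1 = 0)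
    (hmul : ∀ a b, ord (a * b) = ord a + ord b)
    (hadd : ∀ a b, min (ord a) (ord b) ≤ ord (a + b))
    (n k : ℕ) (hk : 0 < k) (f : B) (a : ℕ → B) (ha : ∀ j, ((n * j : ℕ) : ℕ∞) ≤ ord (a j))
    (h : f ^ k + ∑ j ∈ Finset.range k, a (k - j) * f ^ j = 0) : (n : ℕ∞) ≤ ord f := by
  by_contra hlt
  rw [not_le] at hlt
  obtain ⟨s, hs⟩ : ∃ s : ℕ, ord f = s := by
    obtain ⟨s, hs⟩ := ENat.ne_top_iff_exists.1 (ne_top_of_lt hlt)
    exact ⟨s, hs.symm⟩
  have hsn : s < n := by
    rw [hs] at hlt
    exact_mod_cast hlt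
  have hpow : ∀ j : ℕ, ord (f ^ j) = ((s * j : ℕ) : ℕ∞) := by
    intro j
    induction j with
    | zero => simp [h1]
    | succ j ih =>
      rw [pow_succ, hmul, ih, hs]
      push_cast
      ring
  have hsum : ∀ t : Finset ℕ, t ⊆ Finset.range k →
      ((s * k + 1 : ℕ) : ℕ∞) ≤ ord (∑ j ∈ t, a (k - j) * f ^ j) := by
    intro t
    induction t using Finset.induction_on with
    | empty => intro _; rw [Finset.sum_empty, h0]; exact le_top
    | insert i t hi ih =>
      intro hsub
      rw [Finset.sum_insert hi]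
      refine le_trans (le_min ?_ (ih ((Finset.subset_insert _ _).trans hsub))) (hadd _ _)
      have hik : i < k := Finset.mem_range.1 (hsub (Finset.mem_insert_self _ _))
      rw [hmul, hpow]
      refine le_trans ?_ (add_le_add (ha (k - i)) le_rfl)
      have : s * k + 1 ≤ n * (k - i) + s * i := by
        obtain ⟨m, rfl⟩ := Nat.exists_eq_add_of_lt hik
        have h2 : i + m + 1 - i = m + 1 := by omega
        rw [h2]
        nlinarith
      exact_mod_cast this
  have h2 := hsum (Finset.range k) (Finset.Subset.refl _)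
  have h3 : ord (f ^ k) = ord (∑ j ∈ Finset.range k, a (k - j) * f ^ j) := by
    rw [eq_neg_of_add_eq_zero_left h, hneg]
  rw [← h3, hpow] at h2
  have h4 : s * k + 1 ≤ s * k := by exact_mod_cast h2
  omega

lemma PS_order_neg (a : B2) : PowerSeries.order (-a) = PowerSeries.order a :=
  by
    apply le_antisymm
    · conv_rhs => rw [← neg_neg a]
      apply PowerSeries.le_order
      intro i hi
      rw [map_neg, PowerSeries.coeff_of_lt_order i hi, neg_zero]
    · apply PowerSeries.le_order
      intro i hi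
      rw [map_neg, PowerSeries.coeff_of_lt_order i hi, neg_zero]

/-- powers of the maximal ideal are integrally closed -/
lemma closed (n : ℕ) (r : R) :
    r ∈ F n ↔ ∃ k : ℕ, 0 < k ∧ ∃ a : ℕ → R, (∀ j, a j ∈ (IsLocalRing.maximalIdeal R ^ n) ^ j) ∧
      r ^ k + ∑ j ∈ Finset.range k, a (k - j) * r ^ j = 0 := by
  constructor
  · intro h
    refine ⟨1, one_pos, fun j => if j = 1 then -r else 0, ?_, ?_⟩
    · intro j
      by_cases hj : j = 1
      · subst hj
        simp only [if_true]
        rw [pow_one, ← F_eq_pow]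
        exact neg_mem h
      · simp only [if_neg hj]; exact zero_mem _
    · simp
  · rintro ⟨k, hk, a, ha, h⟩
    have ha' : ∀ j, a j ∈ F (n * j) := by
      intro j
      have := ha j
      rwa [← pow_mul, ← F_eq_pow] at this
    rw [mem_F]
    constructor
    · have h1 := congrArg (fun r : R => p1 r) h
      refine order_closure (MvPowerSeries.order (σ := Fin 2) (R := ℚ)) MvPowerSeries.order_zero
        (fun a => MvPowerSeries.order_neg a) ?_ (fun a b => MvPowerSeries.order_mul a b)
        (fun a b => MvPowerSeries.min_order_le_add) n k hk (p1 r) (fun j => p1 (a j))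
        (fun j => (mem_F.1 (ha' j)).1) ?_
      · exact MvPowerSeries.weightedOrder_one _
      · have e : ∀ r : R, p1 r = ((RingHom.fst B1 B2).comp R.subtype) r := fun _ => rfl
        simp only [e] at h1 ⊢
        rw [map_add, map_pow, map_sum, map_zero] at h1
        simpa only [map_mul, map_pow] using h1
    · have h1 := congrArg (fun r : R => p2 r) h
      refine order_closure (PowerSeries.order (R := ℚ)) PowerSeries.order_zero
        PS_order_neg ?_ (fun a b => PowerSeries.order_mul a b)
        (fun a b => PowerSeries.min_order_le_order_add a b) n k hk (p2 r) (fun j => p2 (a j))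
        (fun j => (mem_F.1 (ha' j)).2) ?_
      · exact PowerSeries.order_one
      · have e : ∀ r : R, p2 r = ((RingHom.snd B1 B2).comp R.subtype) r := fun _ => rfl
        simp only [e] at h1 ⊢
        rw [map_add, map_pow, map_sum, map_zero] at h1
        simpa only [map_mul, map_pow] using h1

/-- if a power of `r` has large order, so has `r` -/
lemma pow_mem {n k : ℕ} (hk : 0 < k) {r : R} (h : r ^ k ∈ F (n * k)) : r ∈ F n := by
  rw [closed]
  refine ⟨k, hk, fun j => if j = k then - r ^ k else 0, ?_, ?_⟩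
  · intro j
    by_cases hj : j = k
    · subst hj
      simp only [if_true]
      rw [← pow_mul, ← F_eq_pow]
      exact neg_mem h
    · simp only [if_neg hj]; exact zero_mem _
  · rw [Finset.sum_eq_single 0]
    · simp
    · intro j hj hj0
      have := Finset.mem_range.1 hj
      have h5 : k - j ≠ k := by omega
      simp only [if_neg h5, zero_mul]
    · intro h0
      exact absurd (Finset.mem_range.2 hk) h0

lemma reduced : IsReduced (AdicCompletion (IsLocalRing.maximalIdeal R) R) := by
  constructor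
  rintro a ⟨k, hk⟩
  rcases Nat.eq_zero_or_pos k with h0 | h0
  · subst h0
    rw [pow_zero] at hk
    rw [← mul_one a, hk, mul_zero]
  apply AdicCompletion.ext_evalₐ
  intro n
  rw [map_zero]
  obtain ⟨q, rfl⟩ := AdicCompletion.mk_surjective (IsLocalRing.maximalIdeal R) R a
  have hle : n ≤ n * k := Nat.le_mul_of_pos_right n h0
  have e1 := AdicCompletion.evalₐ_mk (IsLocalRing.maximalIdeal R) n q
  have e2 := AdicCompletion.evalₐ_mk (IsLocalRing.maximalIdeal R) (n * k) q
  have e3 := AdicCompletion.Ideal.mk_eq_mk (IsLocalRing.maximalIdeal R) hle q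
  refine e1.trans (e3.symm.trans ?_)
  have h1 : Ideal.Quotient.mk (IsLocalRing.maximalIdeal R ^ (n * k)) ((q.val (n * k)) ^ k) = 0 := by
    rw [map_pow, ← e2, ← map_pow, hk, map_zero]
  rw [Ideal.Quotient.eq_zero_iff_mem, ← F_eq_pow] at h1
  have h2 := pow_mem h0 h1
  rw [Ideal.Quotient.eq_zero_iff_mem, ← F_eq_pow]
  exact h2

end Pool.Agent.H371R3.NH
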