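import Mathlib
import Pool.Agent.H371R3.NH.B

set_option autoImplicit false

namespace Pool.Agent.H371R3.NH

lemma dim_B1 : (2 : WithBot ℕ∞) ≤ ringKrullDim B1 := by
  have h0 : (0 : WithBot ℕ∞) ≤ ringKrullDim (MvPowerSeries (Fin 0) ℚ) :=
    ringKrullDim_nonneg_of_nontrivial
  have h1 : ringKrullDim (MvPowerSeries (Fin 0) ℚ) + 1 ≤ ringKrullDim (MvPowerSeries (Fin 1) ℚ) := by
    rw [ringKrullDim_eq_of_ringEquiv (MvPowerSeries.finSuccEquiv ℚ 0).toRingEquiv]
    exact ringKrullDim_succ_le_ringKrullDim_powerseries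
  have h2 : ringKrullDim (MvPowerSeries (Fin 1) ℚ) + 1 ≤ ringKrullDim (MvPowerSeries (Fin 2) ℚ) := by
    rw [ringKrullDim_eq_of_ringEquiv (MvPowerSeries.finSuccEquiv ℚ 1).toRingEquiv]
    exact ringKrullDim_succ_le_ringKrullDim_powerseries
  calc (2 : WithBot ℕ∞) = 0 + 1 + 1 := by norm_num
    _ ≤ ringKrullDim (MvPowerSeries (Fin 0) ℚ) + 1 + 1 := by gcongr
    _ ≤ ringKrullDim (MvPowerSeries (Fin 1) ℚ) + 1 := by gcongr
    _ ≤ _ := h2

lemma min_prime : IsLocalRing.maximalIdeal R ∈ (Ideal.span ({y, z + x} : Set R)).minimalPrimes := by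
  rw [← F_one]
  refine ⟨⟨?_, ?_⟩, ?_⟩
  · rw [F_one]; infer_instance
  · rw [Ideal.span_le]
    rintro r (rfl | rfl)
    · exact y_mem
    · exact Ideal.add_mem _ z_mem x_mem
  · rintro q ⟨hq, hle⟩ -
    have hy : y ∈ q := hle (Ideal.subset_span (by simp))
    have hzx : z + x ∈ q := hle (Ideal.subset_span (by simp))
    have hzx0 : z * x = 0 := by
      apply Subtype.ext
      refine Prod.ext ?_ ?_
      · change p1 z * p1 x = 0
        rw [p1_x, mul_zero]
      · change p2 z * p2 x = 0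
        rw [p2_z, zero_mul]
    have hz : z ∈ q := by
      have h1 : z * z ∈ q := by
        have h2 : z * (z + x) ∈ q := Ideal.mul_mem_left _ _ hzx
        rwa [mul_add, hzx0, add_zero] at h2
      exact (hq.mem_or_mem h1).elim id id
    have hx : x ∈ q := by
      have h2 := Ideal.sub_mem _ hzx hz
      rwa [add_sub_cancel_left] at h2
    rw [F_one_span, Ideal.span_le]
    rintro r (rfl | rfl | rfl)
    · exact hy
    · exact hz
    · exact hx

lemma dim_R : ringKrullDim R = ((2 : ℕ) : WithBot ℕ∞) := by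
  apply le_antisymm
  · rw [← IsLocalRing.maximalIdeal_height_eq_ringKrullDim]
    have h1 := Ideal.height_le_card_of_mem_minimalPrimes_span (Set.toFinite _) min_prime
    have h2 : ({y, z + x} : Set R).ncard ≤ 2 := by
      refine (Set.ncard_insert_le _ _).trans ?_
      rw [Set.ncard_singleton]
    have h3 : (IsLocalRing.maximalIdeal R).height ≤ (2 : ℕ) := h1.trans (by exact_mod_cast h2)
    exact WithBot.coe_le_coe.2 h3
  · refine le_trans ?_ (ringKrullDim_le_of_surjective ((RingHom.fst B1 B2).comp R.subtype) ?_)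
    · exact_mod_cast dim_B1
    · intro a
      exact ⟨l1 a, rfl⟩

end Pool.Agent.H371R3.NH
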