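import Mathlib
import Pool.Agent.H371R3.NH.B

set_option autoImplicit false

namespace Pool.Agent.H371R3.NH

/-- one step of the computation of lengths -/
lemma length_step {A : Type} [CommRing A] [IsLocalRing A] (J J' : Ideal A) (t : A)
    (hJ' : J' = J ⊔ Ideal.span {t}) (ht : t ∉ J)
    (hm : ∀ a ∈ IsLocalRing.maximalIdeal A, a * t ∈ J) :
    Module.length A (A ⧸ J) = Module.length A (A ⧸ J') + 1 := by
  have hle : J ≤ J' := hJ' ▸ le_sup_left
  have htJ' : t ∈ J' := by
    rw [hJ']; exact Ideal.mem_sup_right (Ideal.mem_span_singleton_self t)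
  let f : (A ⧸ IsLocalRing.maximalIdeal A) →ₗ[A] (A ⧸ J) :=
    Submodule.liftQ _ (LinearMap.toSpanSingleton A (A ⧸ J) (Ideal.Quotient.mk J t)) (by
      intro a ha
      rw [LinearMap.mem_ker, LinearMap.toSpanSingleton_apply]
      change Ideal.Quotient.mk J (a * t) = 0
      rw [Ideal.Quotient.eq_zero_iff_mem]
      exact hm a ha)
  let g : (A ⧸ J) →ₗ[A] (A ⧸ J') := Submodule.factor hle
  have hf : Function.Injective f := by
    rw [← LinearMap.ker_eq_bot, Submodule.ker_liftQ_eq_bot]
    intro a ha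
    rw [LinearMap.mem_ker, LinearMap.toSpanSingleton_apply] at ha
    change Ideal.Quotient.mk J (a * t) = 0 at ha
    rw [Ideal.Quotient.eq_zero_iff_mem] at ha
    rw [IsLocalRing.mem_maximalIdeal]
    intro hu
    obtain ⟨u, rfl⟩ := hu
    apply ht
    have := J.mul_mem_left (↑u⁻¹ : A) ha
    rwa [← mul_assoc, Units.inv_mul, one_mul] at this
  have hg : Function.Surjective g := Submodule.factor_surjective hle
  have hex : Function.Exact f g := by
    rw [LinearMap.exact_iff]
    ext b
    obtain ⟨b, rfl⟩ := Ideal.Quotient.mk_surjective b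
    rw [LinearMap.mem_ker, LinearMap.mem_range]
    have h1 : g (Ideal.Quotient.mk J b) = Ideal.Quotient.mk J' b := rfl
    rw [h1, Ideal.Quotient.eq_zero_iff_mem, hJ', Submodule.mem_sup]
    constructor
    · rintro ⟨j, hj, s, hs, rfl⟩
      obtain ⟨a, rfl⟩ := Ideal.mem_span_singleton'.1 hs
      refine ⟨Ideal.Quotient.mk _ a, ?_⟩
      change Ideal.Quotient.mk J (a * t) = _
      rw [map_add, Ideal.Quotient.eq_zero_iff_mem.2 hj, zero_add]
    · rintro ⟨a, ha⟩
      obtain ⟨a, rfl⟩ := Ideal.Quotient.mk_surjective a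
      have h2 : Ideal.Quotient.mk J (a * t) = Ideal.Quotient.mk J b := ha
      rw [Ideal.Quotient.eq] at h2
      refine ⟨b - a * t, ?_, a * t, Ideal.mem_span_singleton'.2 ⟨a, rfl⟩, by ring⟩
      have := neg_mem h2
      rwa [neg_sub] at this
  have h3 := Module.length_eq_add_of_exact f g hf hg hex
  have h4 : Module.length A (A ⧸ IsLocalRing.maximalIdeal A) = 1 := by
    rw [Module.length_eq_one_iff]
    have : (IsLocalRing.maximalIdeal A).IsMaximal := inferInstance
    exact isSimpleModule_iff_isCoatom.2 (Ideal.isMaximal_def.1 this)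
  rw [h3, h4, add_comm]

/-- coefficient of a monomial -/
noncomputable def mon (i j : ℕ) : Fin 2 →₀ ℕ := Finsupp.single 0 i + Finsupp.single 1 j

lemma degree_mon (i j : ℕ) : (mon i j).degree = i + j := by
  rw [mon, map_add]
  simp

lemma mon_inj {i j k l : ℕ} (h : mon i j = mon k l) : i = k ∧ j = l := by
  constructor
  · have := DFunLike.congr_fun h 0
    simpa [mon] using this
  · have := DFunLike.congr_fun h 1
    simpa [mon] using this

/-- in degree `n` only the first component -/
def H (n : ℕ) : Ideal R where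
  carrier := {r | r ∈ F n ∧ ((n + 1 : ℕ) : ℕ∞) ≤ PowerSeries.order (p2 r)}
  zero_mem' := by
    refine ⟨zero_mem _, ?_⟩
    rw [show p2 0 = 0 from rfl, PowerSeries.order_zero]; exact le_top
  add_mem' := by
    rintro a b ⟨ha, ha'⟩ ⟨hb, hb'⟩
    exact ⟨add_mem ha hb, le_trans (le_min ha' hb') (PowerSeries.min_order_le_order_add _ _)⟩
  smul_mem' := by
    rintro c a ⟨ha, ha'⟩
    exact ⟨Ideal.mul_mem_left _ _ ha,
      le_trans ha' (le_trans le_add_self (PowerSeries.le_order_mul _ _))⟩

lemma mem_H {n : ℕ} {r : R} : r ∈ H n ↔ r ∈ F n ∧ ((n + 1 : ℕ) : ℕ∞) ≤ PowerSeries.order (p2 r) :=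
  Iff.rfl

/-- the coefficient functional is semilinear on `F n` -/
lemma coeff_mul_F {n : ℕ} {r : R} (hr : r ∈ F n) (a : R) (d : Fin 2 →₀ ℕ) (hd : d.degree = n) :
    MvPowerSeries.coeff d (p1 (a * r)) = chi a * MvPowerSeries.coeff d (p1 r) := by
  have h1 : p1 (a * r) = MvPowerSeries.C (chi a) * p1 r + (p1 a - MvPowerSeries.C (chi a)) * p1 r := by
    change p1 a * p1 r = _
    ring
  rw [h1, map_add, MvPowerSeries.coeff_C_mul]
  have h2 : MvPowerSeries.coeff d ((p1 a - MvPowerSeries.C (chi a)) * p1 r) = 0 := by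
    apply MvPowerSeries.coeff_of_lt_order
    rw [MvPowerSeries.order_mul, hd]
    have h3 : (1 : ℕ∞) ≤ MvPowerSeries.order (p1 a - MvPowerSeries.C (chi a)) := by
      apply MvPowerSeries.one_le_order_iff_constCoeff_eq_zero.2
      rw [map_sub, MvPowerSeries.constantCoeff_C, chi_apply, sub_self]
    have h4 := add_le_add h3 (mem_F.1 hr).1
    refine lt_of_lt_of_le ?_ h4
    have : n < 1 + n := by omega
    exact_mod_cast this
  rw [h2, add_zero]

/-- the intermediate ideals -/
def G (n i : ℕ) : Ideal R where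
  carrier := {r | r ∈ H n ∧ ∀ l < i, l ≤ n → MvPowerSeries.coeff (mon (n - l) l) (p1 r) = 0}
  zero_mem' := ⟨zero_mem _, fun l _ _ => by rw [show p1 0 = 0 from rfl, map_zero]⟩
  add_mem' := by
    rintro a b ⟨ha, ha'⟩ ⟨hb, hb'⟩
    refine ⟨add_mem ha hb, fun l hl hln => ?_⟩
    rw [show p1 (a + b) = p1 a + p1 b from rfl, map_add, ha' l hl hln, hb' l hl hln, add_zero]
  smul_mem' := by
    rintro c a ⟨ha, ha'⟩
    refine ⟨Ideal.mul_mem_left _ _ ha, fun l hl hln => ?_⟩
    rw [smul_eq_mul, coeff_mul_F (mem_H.1 ha).1 c _ (by rw [degree_mon]; omega), ha' l hl hln,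
      mul_zero]

lemma mem_G {n i : ℕ} {r : R} : r ∈ G n i ↔
    r ∈ H n ∧ ∀ l < i, l ≤ n → MvPowerSeries.coeff (mon (n - l) l) (p1 r) = 0 := Iff.rfl

lemma G_zero (n : ℕ) : G n 0 = H n := by
  ext r
  rw [mem_G]
  simp

lemma G_last (n : ℕ) : G n (n + 1) = F (n + 1) := by
  ext r
  rw [mem_G, mem_H, mem_F, mem_F]
  constructor
  · rintro ⟨⟨h1, h2⟩, h3⟩
    refine ⟨?_, h2⟩
    apply MvPowerSeries.le_order
    intro d hd
    have hd' : d.degree < n + 1 := by exact_mod_cast hd
    rcases Nat.lt_or_ge d.degree n with h | h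
    · apply MvPowerSeries.coeff_of_lt_order
      exact lt_of_lt_of_le (by exact_mod_cast h) h1.1
    · have hdn : d 0 + d 1 = n := by
        have : d.degree = d 0 + d 1 := by
          rw [Finsupp.degree_eq_sum]; simp
        omega
      have hd2 : d = mon (n - d 1) (d 1) := by
        ext i
        fin_cases i
        · simp [mon]; omega
        · simp [mon]
      rw [hd2]
      exact h3 (d 1) (by omega) (by omega)
  · rintro ⟨h1, h2⟩
    have hn : (n : ℕ∞) ≤ ((n + 1 : ℕ) : ℕ∞) := by exact_mod_cast Nat.le_succ n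
    refine ⟨⟨⟨hn.trans h1, hn.trans h2⟩, h2⟩, fun l _ hln => ?_⟩
    apply MvPowerSeries.coeff_of_lt_order
    refine lt_of_lt_of_le ?_ h1
    rw [degree_mon]
    have : n - l + l < n + 1 := by omega
    exact_mod_cast this

lemma step_FH (n : ℕ) (hn : 0 < n) :
    Module.length R (R ⧸ H n) = Module.length R (R ⧸ F n) + 1 := by
  have hp1 : p1 (x ^ n) = 0 := by
    rw [show p1 (x ^ n) = p1 x ^ n from rfl, p1_x, zero_pow hn.ne']
  have hp2 : p2 (x ^ n) = PowerSeries.X ^ n := by
    rw [show p2 (x ^ n) = p2 x ^ n from rfl, p2_x]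
  have hxF : x ^ n ∈ F n := by
    rw [mem_F, hp1, hp2, MvPowerSeries.order_zero, PowerSeries.order_X_pow]
    exact ⟨le_top, le_rfl⟩
  have hxord : PowerSeries.order (p2 (x ^ n)) = n := by rw [hp2, PowerSeries.order_X_pow]
  refine length_step (H n) (F n) (x ^ n) ?_ ?_ ?_
  · apply le_antisymm
    · intro r hr
      rw [Submodule.mem_sup]
      refine ⟨r - l1 (MvPowerSeries.C (PowerSeries.coeff n (p2 r))) * x ^ n, ?_,
        l1 (MvPowerSeries.C (PowerSeries.coeff n (p2 r))) * x ^ n,
        Ideal.mem_span_singleton'.2 ⟨_, rfl⟩, by ring⟩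
      rw [mem_H]
      refine ⟨Ideal.sub_mem _ hr (Ideal.mul_mem_left _ _ hxF), ?_⟩
      apply PowerSeries.nat_le_order
      intro i hi
      have e1 : p2 (r - l1 (MvPowerSeries.C (PowerSeries.coeff n (p2 r))) * x ^ n) =
          p2 r - PowerSeries.C (PowerSeries.coeff n (p2 r)) * PowerSeries.X ^ n := by
        change p2 r - p2 (l1 _) * p2 (x ^ n) = _
        rw [hp2]
        congr 2
      rw [e1, map_sub, PowerSeries.coeff_C_mul, PowerSeries.coeff_X_pow]
      by_cases hin : i = n
      · subst hin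
        rw [if_pos rfl]; ring
      · rw [if_neg hin, mul_zero, sub_zero]
        apply PowerSeries.coeff_of_lt_order
        refine lt_of_lt_of_le ?_ (mem_F.1 hr).2
        have : i < n := by omega
        exact_mod_cast this
    · refine sup_le (fun r hr => (mem_H.1 hr).1) ?_
      rw [Ideal.span_le]
      rintro r rfl
      exact hxF
  · intro h
    have h1 := (mem_H.1 h).2
    rw [hxord] at h1
    have : n + 1 ≤ n := by exact_mod_cast h1
    omega
  · intro a ha
    rw [← F_one] at ha
    rw [mem_H]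
    refine ⟨Ideal.mul_mem_left _ _ hxF, ?_⟩
    have h1 := (mem_F.1 ha).2
    change _ ≤ PowerSeries.order (p2 a * p2 (x ^ n))
    rw [PowerSeries.order_mul, hxord]
    push_cast
    rw [add_comm (n : ℕ∞) 1]
    exact add_le_add (by simpa using h1) le_rfl

lemma step_G (n i : ℕ) (hn : 0 < n) (hi : i ≤ n) :
    Module.length R (R ⧸ G n (i + 1)) = Module.length R (R ⧸ G n i) + 1 := by
  classical
  set t : R := l1 (MvPowerSeries.monomial (mon (n - i) i) 1) with ht
  have hp1 : p1 t = MvPowerSeries.monomial (mon (n - i) i) 1 := rfl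
  have hne : mon (n - i) i ≠ 0 := by
    intro h
    have := congrArg Finsupp.degree h
    rw [degree_mon] at this
    simp at this
    omega
  have hp2 : p2 t = 0 := by
    change PowerSeries.C (MvPowerSeries.constantCoeff (MvPowerSeries.monomial (mon (n - i) i) 1)) = 0
    rw [← MvPowerSeries.coeff_zero_eq_constantCoeff_apply, MvPowerSeries.coeff_monomial,
      if_neg (Ne.symm hne), map_zero]
  have hord : MvPowerSeries.order (p1 t) = n := by
    rw [hp1, MvPowerSeries.order_monomial_of_ne_zero one_ne_zero, degree_mon]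
    congr 1
    omega
  have htH : t ∈ H n := by
    rw [mem_H, mem_F, hord, hp2, PowerSeries.order_zero]
    exact ⟨⟨le_rfl, le_top⟩, le_top⟩
  have hcoef : ∀ l, l ≤ n → MvPowerSeries.coeff (mon (n - l) l) (p1 t) = if l = i then 1 else 0 := by
    intro l hl
    rw [hp1, MvPowerSeries.coeff_monomial]
    by_cases h : l = i
    · subst h; simp
    · rw [if_neg h, if_neg]
      intro h'
      exact h (mon_inj h').2
  have htG : t ∈ G n i := by
    rw [mem_G]
    refine ⟨htH, fun l hl hln => ?_⟩
    rw [hcoef l hln, if_neg (by omega)]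
  refine length_step (G n (i + 1)) (G n i) t ?_ ?_ ?_
  · apply le_antisymm
    · intro r hr
      rw [mem_G] at hr
      set q := MvPowerSeries.coeff (mon (n - i) i) (p1 r) with hq
      have hchi : chi (l1 (MvPowerSeries.C q)) = q := by
        rw [chi_apply]
        change MvPowerSeries.constantCoeff (MvPowerSeries.C q) = q
        rw [MvPowerSeries.constantCoeff_C]
      rw [Submodule.mem_sup]
      refine ⟨r - l1 (MvPowerSeries.C q) * t, ?_, l1 (MvPowerSeries.C q) * t,
        Ideal.mem_span_singleton'.2 ⟨_, rfl⟩, by ring⟩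
      rw [mem_G]
      refine ⟨Ideal.sub_mem _ hr.1 (Ideal.mul_mem_left _ _ htH), fun l hl hln => ?_⟩
      rw [show p1 (r - l1 (MvPowerSeries.C q) * t) = p1 r - p1 (l1 (MvPowerSeries.C q) * t) from rfl,
        map_sub, coeff_mul_F (mem_H.1 htH).1 _ _ (by rw [degree_mon]; omega), hchi, hcoef l hln]
      by_cases h : l = i
      · subst h
        rw [if_pos rfl, mul_one, hq, sub_self]
      · rw [if_neg h, mul_zero, sub_zero]
        exact hr.2 l (by omega) hln
    · refine sup_le (fun r hr => ?_) ?_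
      · rw [mem_G] at hr ⊢
        exact ⟨hr.1, fun l hl hln => hr.2 l (by omega) hln⟩
      · rw [Ideal.span_le]
        rintro r rfl
        exact htG
  · intro h
    have h1 := (mem_G.1 h).2 i (by omega) hi
    rw [hcoef i hi, if_pos rfl] at h1
    exact one_ne_zero h1
  · intro a ha
    rw [← F_one, mem_F_one] at ha
    rw [mem_G]
    refine ⟨Ideal.mul_mem_left _ _ htH, fun l hl hln => ?_⟩
    rw [coeff_mul_F (mem_H.1 htH).1 _ _ (by rw [degree_mon]; omega), ha, zero_mul]

lemma length_G (n : ℕ) (hn : 0 < n) (i : ℕ) (hi : i ≤ n + 1) :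
    Module.length R (R ⧸ G n i) = Module.length R (R ⧸ H n) + i := by
  induction i with
  | zero => rw [G_zero]; simp
  | succ i ih =>
    rw [step_G n i hn (by omega), ih (by omega)]
    push_cast
    rw [add_assoc]

lemma length_succ (n : ℕ) (hn : 0 < n) :
    Module.length R (R ⧸ F (n + 1)) = Module.length R (R ⧸ F n) + (n + 2 : ℕ) := by
  rw [← G_last, length_G n hn (n + 1) le_rfl, step_FH n hn]
  push_cast
  rw [add_assoc]
  congr 1
  rw [add_comm (1 : ℕ∞), add_assoc]
  norm_num

lemma length_one : Module.length R (R ⧸ F 1) = 1 := by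
  rw [F_one, Module.length_eq_one_iff]
  have : (IsLocalRing.maximalIdeal R).IsMaximal := inferInstance
  exact isSimpleModule_iff_isCoatom.2 (Ideal.isMaximal_def.1 this)

lemma length_F (n : ℕ) : ∃ m : ℕ, Module.length R (R ⧸ F (n + 1)) = (m : ℕ∞) ∧
    (2 * m : ℤ) = n ^ 2 + 5 * n + 2 := by
  induction n with
  | zero => exact ⟨1, by rw [zero_add, length_one]; rfl, by norm_num⟩
  | succ n ih =>
    obtain ⟨m, hm, hm2⟩ := ih
    refine ⟨m + (n + 3), ?_, ?_⟩
    · rw [length_succ (n + 1) (by omega), hm]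
      push_cast
      rw [add_assoc (n : ℕ∞) 1 2]
      norm_num
    · push_cast
      linarith

end Pool.Agent.H371R3.NH
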